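import Pool.Agent.H79.MC.Targets

/-!
Polynomial space algorithms for maximum cut: module DET (runs are unique).
-/

set_option autoImplicit false

namespace Pool.Agent.H12.MXC

open Pool.Agent.H79.MC

theorem det_aux (W : ℕ) (p : Prog) (s : St) (t₁ : ℕ) (s₁ : St) (h₁ : Run W p s t₁ s₁) :
    ∀ (t₂ : ℕ) (s₂ : St), Run W p s t₂ s₂ → t₁ = t₂ ∧ s₁ = s₂ := by
  induction h₁ with
  | skip s =>
    intro t₂ s₂ h₂
    cases h₂
    exact ⟨rfl, rfl⟩
  | set i e s h =>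
    intro t₂ s₂ h₂
    cases h₂
    exact ⟨rfl, rfl⟩
  | put k e f s h h' =>
    intro t₂ s₂ h₂
    cases h₂
    exact ⟨rfl, rfl⟩
  | seq hp hq ihp ihq =>
    intro t₂ s₂ h₂
    cases h₂ with
    | seq hp' hq' =>
      obtain ⟨e1, e2⟩ := ihp _ _ hp'
      subst e1 e2
      obtain ⟨e3, e4⟩ := ihq _ _ hq'
      subst e3 e4
      exact ⟨rfl, rfl⟩
  | ite_true h hne hp ihp =>
    intro t₂ s₂ h₂
    cases h₂ with
    | ite_true h' hne' hp' =>
      obtain ⟨e1, e2⟩ := ihp _ _ hp'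
      subst e1 e2
      exact ⟨rfl, rfl⟩
    | ite_false h' h0 hq' => exact absurd h0 hne
  | ite_false h h0 hq ihq =>
    intro t₂ s₂ h₂
    cases h₂ with
    | ite_true h' hne' hp' => exact absurd h0 hne'
    | ite_false h' h0' hq' =>
      obtain ⟨e1, e2⟩ := ihq _ _ hq'
      subst e1 e2
      exact ⟨rfl, rfl⟩
  | wh_false h h0 =>
    intro t₂ s₂ h₂
    cases h₂ with
    | wh_false h' h0' => exact ⟨rfl, rfl⟩
    | wh_true h' hne' hp' hq' => exact absurd h0 hne'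
  | wh_true h hne hp hq ihp ihq =>
    intro t₂ s₂ h₂
    cases h₂ with
    | wh_false h' h0' => exact absurd h0' hne
    | wh_true h' hne' hp' hq' =>
      obtain ⟨e1, e2⟩ := ihp _ _ hp'
      subst e1 e2
      obtain ⟨e3, e4⟩ := ihq _ _ hq'
      subst e3 e4
      exact ⟨rfl, rfl⟩

theorem pf_det : T_DET := fun W p s s₁ s₂ t₁ t₂ h₁ h₂ => det_aux W p s t₁ s₁ h₁ t₂ s₂ h₂

end Pool.Agent.H12.MXC
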